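import Pool.Agent.Helper11.AF.RigidAux
import Pool.Agent.Helper38.AF.Transport
import Pool.Agent.Helper43.AF.AlgCount
import Pool.Agent.Helper82.AF.FinVal
import Pool.Agent.Helper79.AF.Siegel

/-!
Rigidity: a homomorphism of the complex tori (tensor `ℚ`), given on `H_1` by a linear map which
respects the Betti structures and the Hodge filtrations, respects the de Rham structures.
-/

open scoped ComplexConjugate
open Filter Topology

namespace Pool.Agent.Helper11.AF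

open Pool.Agent.GPC Pool.Agent.Helper7.AF

section transport

variable {A B : AbVar} (s : Fin A.g → Fin (A.N + 1))

/-- the variables `x_(s a)` -/
noncomputable def xv (s : Fin A.g → Fin (A.N + 1)) :
    MvPolynomial (Fin A.g) ℂ →+* MvPolynomial (VV A B) ℂ :=
  (MvPolynomial.rename (fun a => (Sum.inl (Sum.inl (s a)) : VV A B)) :
    MvPolynomial (Fin A.g) ℂ →ₐ[ℂ] MvPolynomial (VV A B) ℂ)

lemma eval_eval₂ (Φ : Matrix (Fin B.g) (Fin A.g) ℂ)
    (P : Polynomial (MvPolynomial (Fin A.g) ℂ)) (Y : MvPolynomial (VV A B) ℂ) (z : Fin A.g → ℂ) :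
    MvPolynomial.eval (sysF A B A.i0 B.i0 Φ z) (P.eval₂ (xv (B := B) s) Y) =
      ev2 P (fun a => A.θ (s a) z / A.θ A.i0 z)
        (MvPolynomial.eval (sysF A B A.i0 B.i0 Φ z) Y) := by
  rw [Polynomial.hom_eval₂, ev2, Polynomial.eval_map]
  congr 1
  apply MvPolynomial.ringHom_ext
  · intro c
    simp [xv]
  · intro i
    simp [xv, sysF]

lemma map_eval₂ (τ : ℂ ≃+* ℂ) (P : Polynomial (MvPolynomial (Fin A.g) ℂ))
    (Y : MvPolynomial (VV A B) ℂ) :
    MvPolynomial.map (τ : ℂ →+* ℂ) (P.eval₂ (xv (B := B) s) Y) =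
      (P.map (MvPolynomial.map (τ : ℂ →+* ℂ))).eval₂ (xv (B := B) s)
        (MvPolynomial.map (τ : ℂ →+* ℂ) Y) := by
  rw [Polynomial.hom_eval₂, Polynomial.eval₂_map]
  congr 1
  apply MvPolynomial.ringHom_ext
  · intro c
    simp [xv]
  · intro i
    simp [xv]

lemma transport_ev2 (Φ : Matrix (Fin B.g) (Fin A.g) ℂ) (τ : ℂ ≃+* ℂ)
    (hτ : ∀ x, IsAlgebraic ℚ x → τ x = x) (P : Polynomial (MvPolynomial (Fin A.g) ℂ))
    (Y : MvPolynomial (VV A B) ℂ)
    (h : ∀ᶠ z in 𝓝 0, ev2 P (fun a => A.θ (s a) z / A.θ A.i0 z)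
        (MvPolynomial.eval (sysF A B A.i0 B.i0 Φ z) Y) = 0) :
    ∀ᶠ z in 𝓝 0, ev2 (P.map (MvPolynomial.map (τ : ℂ →+* ℂ)))
      (fun a => A.θ (s a) z / A.θ A.i0 z)
        (MvPolynomial.eval (sysF A B A.i0 B.i0 (Φ.map τ) z)
          (MvPolynomial.map (τ : ℂ →+* ℂ) Y)) = 0 := by
  have h1 := Pool.Agent.Helper38.AF.transport A B A.i0 B.i0 A.i0_ne B.i0_ne Φ τ hτ (P.eval₂ (xv (B := B) s) Y) (by
    filter_upwards [h] with z hz
    rw [eval_eval₂]
    exact hz)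
  filter_upwards [h1] with z hz
  rw [map_eval₂, eval_eval₂] at hz
  exact hz

lemma map_ne_zero {g : ℕ} (τ : ℂ ≃+* ℂ) (P : Polynomial (MvPolynomial (Fin g) ℂ)) (hP : P ≠ 0) :
    P.map (MvPolynomial.map (τ : ℂ →+* ℂ)) ≠ 0 := by
  intro h
  apply hP
  have hinj : Function.Injective (MvPolynomial.map (τ : ℂ →+* ℂ) :
      MvPolynomial (Fin g) ℂ →+* MvPolynomial (Fin g) ℂ) :=
    MvPolynomial.map_injective _ τ.injective
  exact (Polynomial.map_eq_zero_iff hinj).mp h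

end transport

variable (A B : AbVar) (Φ β γ : Matrix (Fin B.g) (Fin A.g) ℂ)

/-- the polynomial expression `w_a - ∑ γ_ab ζ_b - ∑ β_ab z_b` -/
noncomputable def Ypol (β γ : Matrix (Fin B.g) (Fin A.g) ℂ) (a : Fin B.g) :
    MvPolynomial (VV A B) ℂ :=
  MvPolynomial.X (Sum.inr (Sum.inl (Sum.inr a))) -
    (∑ b, MvPolynomial.C (γ a b) * MvPolynomial.X (Sum.inr (Sum.inl (Sum.inl b)))) -
    ∑ b, MvPolynomial.C (β a b) * MvPolynomial.X (Sum.inr (Sum.inr b))

lemma map_Ypol (τ : ℂ ≃+* ℂ) (a : Fin B.g) :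
    MvPolynomial.map (τ : ℂ →+* ℂ) (Ypol A B β γ a) = Ypol A B (β.map τ) (γ.map τ) a := by
  unfold Ypol
  simp only [map_sub, map_sum, map_mul, MvPolynomial.map_X, MvPolynomial.map_C, Matrix.map_apply]
  rfl

lemma eval_Ypol (a : Fin B.g) {z : Fin A.g → ℂ} (hz : denR A B Φ z ≠ 0) :
    MvPolynomial.eval (sysF A B A.i0 B.i0 Φ z) (Ypol A B β γ a) =
      numR A B Φ β γ a z / denR A B Φ z := by
  have h1 : B.θ B.i0 (Φ.mulVec z) ≠ 0 := fun h => hz (by unfold denR; rw [h, zero_mul])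
  have h2 : A.θ A.i0 z ≠ 0 := fun h => hz (by unfold denR; rw [h, mul_zero])
  unfold Ypol
  simp only [map_sub, map_sum, map_mul, MvPolynomial.eval_X, MvPolynomial.eval_C, sysF]
  have h3 : ∑ b, γ a b * (pd b (A.θ A.i0) z / A.θ A.i0 z - pd b (A.θ A.i0) 0 / A.θ A.i0 0) =
      (∑ b, γ a b * (pd b (A.θ A.i0) z - A.kap b * A.θ A.i0 z)) / A.θ A.i0 z := by
    rw [Finset.sum_div]
    refine Finset.sum_congr rfl fun b _ => ?_
    unfold AbVar.kap
    field_simp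
  have h4 : pd a (B.θ B.i0) (Φ.mulVec z) / B.θ B.i0 (Φ.mulVec z) - pd a (B.θ B.i0) 0 /
      B.θ B.i0 0 = (pd a (B.θ B.i0) (Φ.mulVec z) - B.kap a * B.θ B.i0 (Φ.mulVec z)) /
        B.θ B.i0 (Φ.mulVec z) := by
    unfold AbVar.kap
    field_simp
  rw [h3, h4]
  unfold numR denR
  generalize ∑ b, γ a b * (pd b (A.θ A.i0) z - A.kap b * A.θ A.i0 z) = S1
  generalize ∑ b, β a b * z b = S2
  field_simp

/-- the linear part: the matrix `Φ` is algebraic -/
theorem alg_Φ (h1 : ∀ l ∈ A.Λ, Φ.mulVec l ∈ B.Λ) (a : Fin B.g) (b : Fin A.g) :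
    IsAlgebraic ℚ (Φ a b) := by
  obtain ⟨s, hs, hsiegel⟩ := Pool.Agent.Helper7.AF.siegel A A.i0 A.i0_ne
  obtain ⟨C, hC0, hC⟩ := norm_mulf_comp_le A B Φ
  have hD0 : ∀ Ψ : Matrix (Fin B.g) (Fin A.g) ℂ, B.θ B.i0 (Ψ.mulVec 0) ≠ 0 := by
    intro Ψ
    rw [Matrix.mulVec_zero]
    exact B.i0_ne
  have hP : ∀ j : Fin (B.N + 1), ∃ P : Polynomial (MvPolynomial (Fin A.g) ℂ), P ≠ 0 ∧
      ∀ z, B.θ B.i0 (Φ.mulVec z) ≠ 0 → A.θ A.i0 z ≠ 0 →
        ev2 P (fun a => A.θ (s a) z / A.θ A.i0 z)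
          (B.θ j (Φ.mulVec z) / B.θ B.i0 (Φ.mulVec z)) = 0 := by
    intro j
    refine hsiegel (fun z => B.θ j (Φ.mulVec z)) (fun z => B.θ B.i0 (Φ.mulVec z))
      (analytic_comp A B Φ (B.analyticAt_theta j)) (analytic_comp A B Φ (B.analyticAt_theta B.i0))
      (hD0 Φ) C ?_
    intro l hl
    refine ⟨fun z => B.mulf (Φ.mulVec l) (Φ.mulVec z), fun z => ⟨?_, ?_, hC l (h1 l hl) z⟩⟩
    · show B.θ j (Φ.mulVec (z + l)) = _
      rw [Matrix.mulVec_add, B.theta_add (h1 l hl)]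
    · show B.θ B.i0 (Φ.mulVec (z + l)) = _
      rw [Matrix.mulVec_add, B.theta_add (h1 l hl)]
  choose P hP0 hP using hP
  have hne0 : ∀ᶠ z in 𝓝 (0 : Fin A.g → ℂ), A.θ A.i0 z ≠ 0 :=
    (A.analyticAt_theta A.i0 0).continuousAt.eventually_ne A.i0_ne
  have hneΨ : ∀ Ψ : Matrix (Fin B.g) (Fin A.g) ℂ, ∀ᶠ z in 𝓝 (0 : Fin A.g → ℂ),
      B.θ B.i0 (Ψ.mulVec z) ≠ 0 := fun Ψ =>
    ((analytic_comp A B Ψ (B.analyticAt_theta B.i0)) 0 (Set.mem_univ _)).continuousAt.eventually_ne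
      (hD0 Ψ)
  refine alg_of_countable (Φ a b) ((fun Ψ : Matrix (Fin B.g) (Fin A.g) ℂ => Ψ a b) ''
    {Ψ : Matrix (Fin B.g) (Fin A.g) ℂ | ∃ m : ℕ, m ≠ 0 ∧ ∀ l ∈ A.Λ, (m : ℂ) • Ψ.mulVec l ∈ B.Λ})
    ((countable_matrices A B).image _) ?_
  intro τ hτ
  refine ⟨Φ.map τ, ?_, rfl⟩
  obtain ⟨z0, hz0, T, hT⟩ := finite_values A A.i0 A.i0_ne s hs (J := Fin (B.N + 1))
    (fun j z => B.θ j ((Φ.map τ).mulVec z)) (fun _ z => B.θ B.i0 ((Φ.map τ).mulVec z))
    (fun j => analytic_comp A B _ (B.analyticAt_theta j))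
    (fun _ => analytic_comp A B _ (B.analyticAt_theta B.i0)) (fun _ => hD0 _)
    (fun j => (P j).map (MvPolynomial.map (τ : ℂ →+* ℂ))) (fun j => map_ne_zero τ _ (hP0 j))
    (by
      intro j
      have h2 := transport_ev2 (B := B) s Φ τ hτ (P j)
        (MvPolynomial.X (Sum.inl (Sum.inr j))) (by
          filter_upwards [hne0, hneΨ Φ] with z hz hz'
          rw [MvPolynomial.eval_X]
          exact hP j z hz' hz)
      rw [MvPolynomial.map_X] at h2
      filter_upwards [h2] with z hz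
      rw [MvPolynomial.eval_X] at hz
      exact hz)
  exact exists_mul_mem A B (Φ.map τ) z0 (fun l hl => hz0 l hl 0) T hT

/-- additive finite values vanish -/
lemma eq_zero_of_finite (T : Finset ℂ) (r c : ℂ) (h : ∀ k : ℕ, r + k * c ∈ T) : c = 0 := by
  by_contra hc
  have hinj : Function.Injective (fun k : ℕ => r + (k : ℂ) * c) := by
    intro k k' hk
    have h1 : (k : ℂ) * c = (k' : ℂ) * c := add_left_cancel hk
    exact_mod_cast mul_right_cancel₀ hc h1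
  have h2 : Set.Infinite (Set.range fun k : ℕ => r + (k : ℂ) * c) := Set.infinite_range_of_injective hinj
  apply h2
  refine (T.finite_toSet).subset ?_
  rintro _ ⟨k, rfl⟩
  exact h k

/-- the second kind part -/
theorem alg_βγ (h1 : ∀ l ∈ A.Λ, Φ.mulVec l ∈ B.Λ)
    (h2 : ∀ l ∈ A.Λ, ∀ a, defect A B Φ β γ a l = 0) (a : Fin B.g) (b : Fin A.g) :
    IsAlgebraic ℚ (β a b) ∧ IsAlgebraic ℚ (γ a b) := by
  obtain ⟨s, hs, hsiegel⟩ := Pool.Agent.Helper7.AF.siegel A A.i0 A.i0_ne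
  obtain ⟨C, hC0, hC⟩ := norm_mulf_comp_le A B Φ
  obtain ⟨C', hC'0, hC'⟩ := norm_mulf_le A
  obtain ⟨P, hP0, hP⟩ : ∃ P : Polynomial (MvPolynomial (Fin A.g) ℂ), P ≠ 0 ∧
      ∀ z, denR A B Φ z ≠ 0 → A.θ A.i0 z ≠ 0 →
        ev2 P (fun a => A.θ (s a) z / A.θ A.i0 z)
          (numR A B Φ β γ a z / denR A B Φ z) = 0 := by
    refine hsiegel (numR A B Φ β γ a) (denR A B Φ) (analytic_numR A B Φ β γ a)
      (analytic_denR A B Φ) (denR_zero A B Φ) (C + C') ?_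
    intro l hl
    refine ⟨fun z => B.mulf (Φ.mulVec l) (Φ.mulVec z) * A.mulf l z, fun z => ⟨?_, ?_, ?_⟩⟩
    · rw [numR_add A B Φ β γ a hl (h1 l hl), h2 l hl, zero_mul, add_zero]
    · rw [denR_add A B Φ hl (h1 l hl)]
    · rw [norm_mul, add_mul, Real.exp_add]
      exact mul_le_mul (hC l (h1 l hl) z) (hC' l hl z) (norm_nonneg _) (Real.exp_pos _).le
  have hne : ∀ᶠ z in 𝓝 (0 : Fin A.g → ℂ), denR A B Φ z ≠ 0 :=
    (analytic_denR A B Φ 0 (Set.mem_univ _)).continuousAt.eventually_ne (denR_zero A B Φ)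
  have hne0 : ∀ᶠ z in 𝓝 (0 : Fin A.g → ℂ), A.θ A.i0 z ≠ 0 :=
    (A.analyticAt_theta A.i0 0).continuousAt.eventually_ne A.i0_ne
  have key : ∀ τ : ℂ ≃+* ℂ, (∀ x, IsAlgebraic ℚ x → τ x = x) →
      τ (β a b) = β a b ∧ τ (γ a b) = γ a b := by
    intro τ hτ
    have hΦ : Φ.map τ = Φ := by
      ext i j
      exact hτ _ (alg_Φ A B Φ h1 i j)
    have h3 := transport_ev2 (B := B) s Φ τ hτ P (Ypol A B β γ a) (by
      filter_upwards [hne, hne0] with z hz hz'
      rw [eval_Ypol A B Φ β γ a hz]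
      exact hP z hz hz')
    rw [hΦ, map_Ypol] at h3
    obtain ⟨z0, hz0, T, hT⟩ := finite_values A A.i0 A.i0_ne s hs (J := Unit)
      (fun _ => numR A B Φ (β.map τ) (γ.map τ) a) (fun _ => denR A B Φ)
      (fun _ => analytic_numR A B Φ _ _ a) (fun _ => analytic_denR A B Φ)
      (fun _ => denR_zero A B Φ) (fun _ => P.map (MvPolynomial.map (τ : ℂ →+* ℂ)))
      (fun _ => map_ne_zero τ _ hP0) (by
        intro _
        filter_upwards [h3, hne] with z hz hz'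
        rw [eval_Ypol A B Φ _ _ a hz'] at hz
        exact hz)
    have hdef : ∀ l ∈ A.Λ, defect A B Φ (β.map τ) (γ.map τ) a l = 0 := by
      intro l hl
      refine eq_zero_of_finite T (numR A B Φ (β.map τ) (γ.map τ) a z0 / denR A B Φ z0) _ ?_
      intro k
      have hmem : (k : ℂ) • l ∈ A.Λ := by
        have h1 : (k : ℂ) • l = (k : ℤ) • l := by
          funext j; simp
        rw [h1]
        exact A.Λ.smul_mem _ hl
      have h4 := hT _ hmem ()
      have hz00 : denR A B Φ z0 ≠ 0 := by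
        have := hz0 0 A.Λ.zero_mem ()
        rwa [add_zero] at this
      have hu : B.mulf (Φ.mulVec ((k : ℂ) • l)) (Φ.mulVec z0) * A.mulf ((k : ℂ) • l) z0 ≠ 0 :=
        mul_ne_zero (B.mulf_ne_zero (h1 _ hmem) _) (A.mulf_ne_zero hmem _)
      rw [numR_add A B Φ _ _ a hmem (h1 _ hmem), denR_add A B Φ hmem (h1 _ hmem),
        mul_div_mul_left _ _ hu, add_div, mul_div_assoc, div_self hz00, mul_one,
        defect_nsmul] at h4
      exact h4
    have h5 := functional_zero A (fun b => τ (β a b) - β a b) (fun b => τ (γ a b) - γ a b) (by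
      intro l hl
      have h6 := hdef l hl
      have h7 := h2 l hl a
      unfold defect at h6 h7
      simp only [Matrix.map_apply] at h6
      simp only [sub_mul, Finset.sum_sub_distrib]
      linear_combination h7 - h6)
    exact ⟨sub_eq_zero.mp (congrFun h5.1 b), sub_eq_zero.mp (congrFun h5.2 b)⟩
  exact ⟨alg_of_countable _ {β a b} (Set.countable_singleton _) fun τ hτ => (key τ hτ).1,
    alg_of_countable _ {γ a b} (Set.countable_singleton _) fun τ hτ => (key τ hτ).2⟩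

/-- a common denominator -/
lemma exists_scale (f : A.H1 → B.H1) (hl : IsLinearMap ℂ f)
    (hb : ∀ v, A.IsBetti v → B.IsBetti (f v)) :
    ∃ m : ℕ, m ≠ 0 ∧ ∀ l ∈ A.Λ, ∃ l' ∈ B.Λ, (m : ℂ) • f (A.period l) = B.period l' := by
  classical
  have := A.discrete
  have : IsZLattice ℝ A.Λ := ⟨A.spans⟩
  let b₀ := Module.Free.chooseBasis ℤ A.Λ
  have h1 : ∀ i, ∃ N : ℕ, N ≠ 0 ∧ ∃ l ∈ B.Λ,
      (N : ℂ) • f (A.period (b₀ i : Fin A.g → ℂ)) = B.period l := fun i =>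
    hb _ ⟨1, one_ne_zero, _, (b₀ i).2, by simp⟩
  choose N hN l' hl' h1 using h1
  refine ⟨∏ i, N i, Finset.prod_ne_zero_iff.mpr fun i _ => hN i, fun l hlΛ => ?_⟩
  -- the submodule of good elements
  let L : A.H1 →ₗ[ℂ] B.H1 := IsLinearMap.mk' f hl
  let hA : (Fin A.g → ℂ) →+ A.H1 := Pool.Agent.Helper7.periodHom A
  let hB : (Fin B.g → ℂ) →+ B.H1 := Pool.Agent.Helper7.periodHom B
  let S : AddSubgroup A.Λ :=
    { carrier := {l | ∃ l' ∈ B.Λ, ((∏ i, N i : ℕ) : ℂ) • L (hA (l : Fin A.g → ℂ)) = hB l'}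
      add_mem' := by
        rintro x y ⟨x', hx', hx⟩ ⟨y', hy', hy⟩
        refine ⟨x' + y', B.Λ.add_mem hx' hy', ?_⟩
        rw [Submodule.coe_add, map_add, map_add, smul_add, hx, hy, map_add]
      zero_mem' := ⟨0, B.Λ.zero_mem, by simp⟩
      neg_mem' := by
        rintro x ⟨x', hx', hx⟩
        refine ⟨-x', B.Λ.neg_mem hx', ?_⟩
        rw [Submodule.coe_neg, map_neg, map_neg, smul_neg, hx, map_neg] }
  have hS : ∀ i, b₀ i ∈ S := by
    intro i
    refine ⟨(∏ j ∈ Finset.univ.erase i, (N j : ℤ)) • l' i, B.Λ.smul_mem _ (hl' i), ?_⟩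
    rw [map_zsmul]
    have h2 : L (hA (b₀ i : Fin A.g → ℂ)) = f (A.period (b₀ i : Fin A.g → ℂ)) := rfl
    have h3 : hB (l' i) = B.period (l' i) := rfl
    rw [h2, h3, ← h1 i, ← Finset.mul_prod_erase Finset.univ N (Finset.mem_univ i)]
    funext j
    simp
    ring
  have hmem : (⟨l, hlΛ⟩ : A.Λ) ∈ S := by
    rw [← b₀.sum_repr ⟨l, hlΛ⟩]
    exact AddSubgroup.sum_mem _ fun i _ => AddSubgroup.zsmul_mem _ (hS i) _
  exact hmem

end Pool.Agent.Helper11.AF

namespace Pool.Agent.GPC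

open Pool.Agent.Helper11.AF

/-- Rigidity: a homomorphism of the complex tori (tensor `ℚ`) respects the de Rham structures. -/
theorem deRham_of_hodge (A B : AbVar) (f : A.H1 → B.H1) (hl : IsLinearMap ℂ f)
    (hb : ∀ v, A.IsBetti v → B.IsBetti (f v)) (hh : ∀ v, A.IsFil v → B.IsFil (f v)) :
    ∀ v, A.IsDeRham v → B.IsDeRham (f v) := by
  classical
  obtain ⟨m, hm, hper⟩ := exists_scale A B f hl hb
  have hmC : (m : ℂ) ≠ 0 := Nat.cast_ne_zero.mpr hm
  let L : A.H1 →ₗ[ℂ] B.H1 := IsLinearMap.mk' f hl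
  let M := LinearMap.toMatrix' L
  have hM : ∀ v i, f v i = (∑ b, M i (.inl b) * v (.inl b)) + ∑ b, M i (.inr b) * v (.inr b) := by
    intro v i
    have h1 : f v = M.mulVec v := by
      have h2 : L v = Matrix.toLin' M v := by rw [Matrix.toLin'_toMatrix']
      rw [Matrix.toLin'_apply] at h2
      exact h2
    rw [h1, Matrix.mulVec, dotProduct, Fintype.sum_sum_type]
  have hzero : ∀ a b, M (.inl a) (.inr b) = 0 := by
    intro a b
    have h1 : A.IsFil (Pi.single (.inr b) 1) := by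
      intro c
      rw [Pi.single_eq_of_ne (by simp)]
    have h2 := hh _ h1 a
    have h3 : M (.inl a) (.inr b) = L (Pi.single (.inr b) 1) (.inl a) := by
      show LinearMap.toMatrix' L (.inl a) (.inr b) = _
      rw [LinearMap.toMatrix'_apply]
    rw [h3]
    exact h2
  let Φ : Matrix (Fin B.g) (Fin A.g) ℂ := fun a b => m * M (.inl a) (.inl b)
  let β : Matrix (Fin B.g) (Fin A.g) ℂ := fun a b => m * M (.inr a) (.inl b)
  let γ : Matrix (Fin B.g) (Fin A.g) ℂ := fun a b => m * M (.inr a) (.inr b)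
  have h1 : ∀ l ∈ A.Λ, Φ.mulVec l ∈ B.Λ ∧ B.period (Φ.mulVec l) = (m : ℂ) • f (A.period l) := by
    intro l hlΛ
    obtain ⟨l', hl', h2⟩ := hper l hlΛ
    have h3 : Φ.mulVec l = l' := by
      funext a
      have h4 := congrFun h2 (.inl a)
      rw [Pi.smul_apply, hM] at h4
      simp only [hzero, zero_mul, Finset.sum_const_zero, add_zero, smul_eq_mul] at h4
      show ∑ b, (m * M (.inl a) (.inl b)) * l b = l' a
      have h5 : B.period l' (.inl a) = l' a := rfl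
      rw [← h5, ← h4, Finset.mul_sum]
      exact Finset.sum_congr rfl fun b _ => by
        have : A.period l (.inl b) = l b := rfl
        rw [this]; ring
    rw [h3]
    exact ⟨hl', h2.symm⟩
  have h2 : ∀ l ∈ A.Λ, ∀ a, defect A B Φ β γ a l = 0 := by
    intro l hlΛ a
    have h3 := congrFun (h1 l hlΛ).2 (.inr a)
    rw [Pi.smul_apply, hM] at h3
    have h4 : B.period (Φ.mulVec l) (.inr a) = B.eta (Φ.mulVec l) a := rfl
    unfold defect
    rw [← h4, h3, smul_eq_mul, mul_add, Finset.mul_sum, Finset.mul_sum]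
    have h5 : ∑ b, γ a b * A.eta l b = ∑ b, (m : ℂ) * (M (.inr a) (.inr b) * A.period l (.inr b)) :=
      Finset.sum_congr rfl fun b _ => by
        show (m * M (.inr a) (.inr b)) * A.eta l b = m * (M (.inr a) (.inr b) * A.eta l b)
        ring
    have h6 : ∑ b, β a b * l b = ∑ b, (m : ℂ) * (M (.inr a) (.inl b) * A.period l (.inl b)) :=
      Finset.sum_congr rfl fun b _ => by
        show (m * M (.inr a) (.inl b)) * l b = m * (M (.inr a) (.inl b) * l b)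
        ring
    rw [h5, h6]
    ring
  have hdiv : ∀ x : ℂ, IsAlgebraic ℚ ((m : ℂ) * x) → IsAlgebraic ℚ x := by
    intro x hx
    have h3 : x = (m : ℂ)⁻¹ * ((m : ℂ) * x) := by
      rw [inv_mul_cancel_left₀ hmC]
    rw [h3]
    exact (isAlgebraic_natCast m).inv.mul hx
  have hΛ1 : ∀ l ∈ A.Λ, Φ.mulVec l ∈ B.Λ := fun l hl => (h1 l hl).1
  have hMalg : ∀ i j, IsAlgebraic ℚ (M i j) := by
    intro i j
    rcases i with a | a <;> rcases j with b | b
    · exact hdiv _ (alg_Φ A B Φ hΛ1 a b)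
    · rw [hzero]; exact isAlgebraic_zero
    · exact hdiv _ (alg_βγ A B Φ β γ hΛ1 h2 a b).1
    · exact hdiv _ (alg_βγ A B Φ β γ hΛ1 h2 a b).2
  intro v hv i
  rw [hM]
  have hsum : ∀ (F : Fin A.g → ℂ), (∀ b, IsAlgebraic ℚ (F b)) → IsAlgebraic ℚ (∑ b, F b) :=
    fun F hF => Pool.Agent.Helper7.isAlg_sum _ _ fun b _ => hF b
  exact (hsum _ fun b => (hMalg _ _).mul (hv _)).add (hsum _ fun b => (hMalg _ _).mul (hv _))

end Pool.Agent.GPC
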