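import Pool.Agent.Helper39.AF.Defs1

/-!
Isogenies from an abelian variety to a product of abelian varieties.
-/

namespace Pool.Agent.GPC

/-- `Φ` is an isogeny (tensor `ℚ`) from `X` to `∏_i A_i^{n_i}`: a bijective morphism whose inverse is a
morphism. -/
structure IsIsogeny (X : AbVar) {I : Type} [Fintype I] (A : I → AbVar) (n : I → ℕ)
    (Φ : X.H1 ≃ₗ[ℂ] H1 A n) : Prop where
  betti : ∀ v, X.IsBetti v ↔ IsBetti A n (Φ v)
  deRham : ∀ v, X.IsDeRham v ↔ IsDeRham A n (Φ v)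
  fil : ∀ v, X.IsFil v ↔ IsFil A n (Φ v)

end Pool.Agent.GPC
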