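import Pool.Agent.Helper7.AF.RigidDefs
import Pool.Agent.Helper7.Periods
import Pool.Agent.Helper8.SysPer

/-!
Auxiliary lemmas for the rigidity theorem: growth of the multipliers, quasi-periodicity of the
numerators, countability, additive periods.
-/

open scoped ComplexConjugate
open Filter Topology

namespace Pool.Agent.Helper11.AF

open Pool.Agent.GPC Pool.Agent.Helper7.AF

/-- the linear map of a matrix, as continuous linear map -/
noncomputable def mv {m n : ℕ} (Φ : Matrix (Fin m) (Fin n) ℂ) :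
    (Fin n → ℂ) →L[ℂ] (Fin m → ℂ) := LinearMap.toContinuousLinearMap (Matrix.mulVecLin Φ)

lemma mv_apply {m n : ℕ} (Φ : Matrix (Fin m) (Fin n) ℂ) (z : Fin n → ℂ) :
    mv Φ z = Φ.mulVec z := rfl

/-- growth of the multipliers -/
lemma norm_mulf_le (A : AbVar) : ∃ C : ℝ, 0 ≤ C ∧ ∀ l ∈ A.Λ, ∀ z,
    ‖A.mulf l z‖ ≤ Real.exp (C * (1 + ‖l‖ + ‖z‖) ^ 2) := by
  obtain ⟨CH, hCH0, hCH⟩ := exists_norm_hermForm_le A.H
  obtain ⟨Cq, hCq0, hCq⟩ := exists_norm_bilForm_le A.q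
  refine ⟨Real.pi * CH + Real.pi / 2 * CH + Cq + 1 / 2 * Cq, by positivity, fun l hl z => ?_⟩
  have h0 : A.mulf l z = A.χ l * Complex.exp (Real.pi * hermForm A.H z l +
      Real.pi / 2 * hermForm A.H l l + bilForm A.q z l + 1 / 2 * bilForm A.q l l) := by
    rw [AbVar.mulf, ← A.eta_sum]
    congr 2
    ring
  rw [h0, norm_mul, A.χ_norm l hl, one_mul, Complex.norm_exp]
  apply Real.exp_le_exp.mpr
  refine (Complex.re_le_norm _).trans ?_
  set s : ℝ := 1 + ‖l‖ + ‖z‖ with hs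
  have hz : ‖z‖ ≤ s := by rw [hs]; linarith [norm_nonneg l]
  have hl' : ‖l‖ ≤ s := by rw [hs]; linarith [norm_nonneg z]
  have hs0 : 0 ≤ s := by positivity
  have h1 : ‖(Real.pi : ℂ) * hermForm A.H z l‖ ≤ Real.pi * CH * s ^ 2 := by
    rw [norm_mul, Complex.norm_real, Real.norm_of_nonneg Real.pi_pos.le]
    calc Real.pi * ‖hermForm A.H z l‖ ≤ Real.pi * (CH * ‖z‖ * ‖l‖) := by gcongr; exact hCH _ _
      _ ≤ Real.pi * (CH * s * s) := by gcongr
      _ = _ := by ring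
  have h2 : ‖(Real.pi : ℂ) / 2 * hermForm A.H l l‖ ≤ Real.pi / 2 * CH * s ^ 2 := by
    rw [norm_mul, norm_div, Complex.norm_real, Real.norm_of_nonneg Real.pi_pos.le]
    simp only [Complex.norm_ofNat]
    calc Real.pi / 2 * ‖hermForm A.H l l‖ ≤ Real.pi / 2 * (CH * ‖l‖ * ‖l‖) := by
          gcongr; exact hCH _ _
      _ ≤ Real.pi / 2 * (CH * s * s) := by gcongr
      _ = _ := by ring
  have h3 : ‖bilForm A.q z l‖ ≤ Cq * s ^ 2 := by
    calc ‖bilForm A.q z l‖ ≤ Cq * ‖z‖ * ‖l‖ := hCq _ _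
      _ ≤ Cq * s * s := by gcongr
      _ = _ := by ring
  have h4 : ‖(1 : ℂ) / 2 * bilForm A.q l l‖ ≤ 1 / 2 * Cq * s ^ 2 := by
    rw [norm_mul, norm_div, norm_one, Complex.norm_ofNat]
    calc (1 : ℝ) / 2 * ‖bilForm A.q l l‖ ≤ 1 / 2 * (Cq * ‖l‖ * ‖l‖) := by
          gcongr
          exact hCq _ _
      _ ≤ 1 / 2 * (Cq * s * s) := by gcongr
      _ = _ := by ring
  calc ‖(Real.pi : ℂ) * hermForm A.H z l + Real.pi / 2 * hermForm A.H l l + bilForm A.q z l +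
        1 / 2 * bilForm A.q l l‖ ≤ ‖(Real.pi : ℂ) * hermForm A.H z l‖ +
        ‖(Real.pi : ℂ) / 2 * hermForm A.H l l‖ + ‖bilForm A.q z l‖ +
        ‖(1 : ℂ) / 2 * bilForm A.q l l‖ :=
      (norm_add_le _ _).trans (by gcongr; exact (norm_add_le _ _).trans (by
        gcongr; exact norm_add_le _ _))
    _ ≤ _ := by linarith

variable (A B : AbVar) (Φ : Matrix (Fin B.g) (Fin A.g) ℂ)

/-- growth of the pulled back multipliers -/
lemma norm_mulf_comp_le : ∃ C : ℝ, 0 ≤ C ∧ ∀ l : Fin A.g → ℂ, Φ.mulVec l ∈ B.Λ → ∀ z,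
    ‖B.mulf (Φ.mulVec l) (Φ.mulVec z)‖ ≤ Real.exp (C * (1 + ‖l‖ + ‖z‖) ^ 2) := by
  obtain ⟨C, hC0, hC⟩ := norm_mulf_le B
  set K : ℝ := ‖mv Φ‖ with hK
  have hK0 : 0 ≤ K := norm_nonneg _
  have hle : ∀ z, ‖Φ.mulVec z‖ ≤ K * ‖z‖ := fun z => (mv Φ).le_opNorm z
  refine ⟨C * (1 + K) ^ 2, by positivity, fun l hl z => ?_⟩
  refine (hC _ hl _).trans (Real.exp_le_exp.mpr ?_)
  have h1 : 1 + ‖Φ.mulVec l‖ + ‖Φ.mulVec z‖ ≤ (1 + K) * (1 + ‖l‖ + ‖z‖) := by
    nlinarith [hle l, hle z, norm_nonneg l, norm_nonneg z]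
  calc C * (1 + ‖Φ.mulVec l‖ + ‖Φ.mulVec z‖) ^ 2 ≤ C * ((1 + K) * (1 + ‖l‖ + ‖z‖)) ^ 2 := by
        gcongr
    _ = _ := by ring

lemma analytic_comp {f : (Fin B.g → ℂ) → ℂ} (hf : ∀ z, AnalyticAt ℂ f z) :
    AnalyticOnNhd ℂ (fun z => f (Φ.mulVec z)) Set.univ := by
  intro z _
  have h1 := ((hf (mv Φ z))).comp ((mv Φ).analyticAt z)
  exact h1

/-- the numerator of `R_a` -/
noncomputable def numR (β γ : Matrix (Fin B.g) (Fin A.g) ℂ) (a : Fin B.g) (z : Fin A.g → ℂ) : ℂ :=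
  (pd a (B.θ B.i0) (Φ.mulVec z) - B.kap a * B.θ B.i0 (Φ.mulVec z)) * A.θ A.i0 z -
    (∑ b, γ a b * (pd b (A.θ A.i0) z - A.kap b * A.θ A.i0 z)) * B.θ B.i0 (Φ.mulVec z) -
    (∑ b, β a b * z b) * (B.θ B.i0 (Φ.mulVec z) * A.θ A.i0 z)

/-- the denominator of `R_a` -/
noncomputable def denR (z : Fin A.g → ℂ) : ℂ := B.θ B.i0 (Φ.mulVec z) * A.θ A.i0 z

lemma analytic_denR : AnalyticOnNhd ℂ (denR A B Φ) Set.univ := by
  intro z hz
  exact (analytic_comp A B Φ (fun z => B.analyticAt_theta B.i0 z) z hz).mul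
    (A.analyticAt_theta A.i0 z)

lemma denR_zero : denR A B Φ 0 ≠ 0 := by
  unfold denR
  rw [Matrix.mulVec_zero]
  exact mul_ne_zero B.i0_ne A.i0_ne

lemma analytic_numR (β γ : Matrix (Fin B.g) (Fin A.g) ℂ) (a : Fin B.g) :
    AnalyticOnNhd ℂ (numR A B Φ β γ a) Set.univ := by
  intro z hz
  have h1 := analytic_comp A B Φ (fun z => B.analyticAt_theta B.i0 z) z hz
  have h2 := analytic_comp A B Φ (fun z => B.analyticAt_pd B.i0 a z) z hz
  have h3 := A.analyticAt_theta A.i0 z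
  have h4 : ∀ b, AnalyticAt ℂ (pd b (A.θ A.i0)) z := fun b => A.analyticAt_pd A.i0 b z
  have h5 : ∀ b, AnalyticAt ℂ (fun z : Fin A.g → ℂ => z b) z := fun b =>
    (ContinuousLinearMap.proj (R := ℂ) (φ := fun _ : Fin A.g => ℂ) b).analyticAt z
  unfold numR
  refine AnalyticAt.sub (AnalyticAt.sub ?_ ?_) ?_
  · exact (h2.sub (analyticAt_const.mul h1)).mul h3
  · refine AnalyticAt.mul ?_ h1
    apply Finset.analyticAt_fun_sum
    intro b _
    exact analyticAt_const.mul ((h4 b).sub (analyticAt_const.mul h3))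
  · refine AnalyticAt.mul ?_ (h1.mul h3)
    apply Finset.analyticAt_fun_sum
    intro b _
    exact analyticAt_const.mul (h5 b)

/-- the defect -/
noncomputable def defect (β γ : Matrix (Fin B.g) (Fin A.g) ℂ) (a : Fin B.g)
    (l : Fin A.g → ℂ) : ℂ :=
  B.eta (Φ.mulVec l) a - ∑ b, γ a b * A.eta l b - ∑ b, β a b * l b

lemma denR_add {l : Fin A.g → ℂ} (hl : l ∈ A.Λ) (hl' : Φ.mulVec l ∈ B.Λ) (z : Fin A.g → ℂ) :
    denR A B Φ (z + l) = (B.mulf (Φ.mulVec l) (Φ.mulVec z) * A.mulf l z) * denR A B Φ z := by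
  unfold denR
  rw [Matrix.mulVec_add, B.theta_add hl', A.theta_add hl]
  ring

lemma numR_add (β γ : Matrix (Fin B.g) (Fin A.g) ℂ) (a : Fin B.g) {l : Fin A.g → ℂ}
    (hl : l ∈ A.Λ) (hl' : Φ.mulVec l ∈ B.Λ) (z : Fin A.g → ℂ) :
    numR A B Φ β γ a (z + l) = (B.mulf (Φ.mulVec l) (Φ.mulVec z) * A.mulf l z) *
      (numR A B Φ β γ a z + defect A B Φ β γ a l * denR A B Φ z) := by
  unfold numR defect denR
  have h1 : ∑ b, γ a b * (pd b (A.θ A.i0) (z + l) - A.kap b * A.θ A.i0 (z + l)) =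
      A.mulf l z * ((∑ b, γ a b * (pd b (A.θ A.i0) z - A.kap b * A.θ A.i0 z)) +
        (∑ b, γ a b * A.eta l b) * A.θ A.i0 z) := by
    rw [Finset.sum_mul, ← Finset.sum_add_distrib, Finset.mul_sum]
    refine Finset.sum_congr rfl fun b _ => ?_
    rw [A.pd_add hl, A.theta_add hl]
    ring
  have h2 : ∑ b, β a b * (z + l) b = (∑ b, β a b * z b) + ∑ b, β a b * l b := by
    rw [← Finset.sum_add_distrib]
    exact Finset.sum_congr rfl fun b _ => by rw [Pi.add_apply]; ring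
  rw [h1, h2, Matrix.mulVec_add, B.theta_add hl', A.theta_add hl, B.pd_add hl']
  ring

/-- the defect is additive -/
lemma defect_nsmul (β γ : Matrix (Fin B.g) (Fin A.g) ℂ) (a : Fin B.g) (l : Fin A.g → ℂ) (k : ℕ) :
    defect A B Φ β γ a ((k : ℂ) • l) = k * defect A B Φ β γ a l := by
  have heta : ∀ (X : AbVar) (l : Fin X.g → ℂ) (a : Fin X.g), X.eta ((k : ℂ) • l) a =
      k * X.eta l a := by
    intro X l a
    unfold AbVar.eta
    rw [Pool.Agent.GPC.hermForm_smul_right, Pool.Agent.GPC.bilForm_smul_right, Complex.conj_natCast]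
    ring
  unfold defect
  rw [Matrix.mulVec_smul, heta]
  simp only [heta, Pi.smul_apply, smul_eq_mul]
  rw [mul_sub, mul_sub, Finset.mul_sum, Finset.mul_sum]
  congr 1
  · congr 1
    exact Finset.sum_congr rfl fun b _ => by ring
  · exact Finset.sum_congr rfl fun b _ => by ring

/-- a linear functional which vanishes on the periods is zero -/
lemma functional_zero (p q : Fin A.g → ℂ)
    (h : ∀ l ∈ A.Λ, ∑ b, p b * l b + ∑ b, q b * A.eta l b = 0) : p = 0 ∧ q = 0 := by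
  obtain ⟨ι, _, b, hb⟩ := Pool.Agent.Helper7.exists_bettiBasis A
  let φ : A.H1 →ₗ[ℂ] ℂ :=
    { toFun := fun v => ∑ c, p c * v (.inl c) + ∑ c, q c * v (.inr c)
      map_add' := by
        intro u v
        simp only [Pi.add_apply, mul_add, Finset.sum_add_distrib]
        ring
      map_smul' := by
        intro c v
        simp only [Pi.smul_apply, smul_eq_mul, RingHom.id_apply, mul_add, Finset.mul_sum]
        congr 1 <;> exact Finset.sum_congr rfl fun b _ => by ring }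
  have h1 : ∀ v ∈ A.betti, φ v = 0 := by
    intro v hv
    unfold AbVar.betti at hv
    induction hv using Submodule.span_induction with
    | mem v hv =>
      obtain ⟨l, hl, rfl⟩ := hv
      exact h l hl
    | zero => exact map_zero _
    | add x y _ _ hx hy => rw [map_add, hx, hy, add_zero]
    | smul c x _ hx =>
      have h2 : c • x = (c : ℂ) • x := by
        funext j; simp [Algebra.smul_def]
      rw [h2, map_smul, hx, smul_zero]
  have h2 : φ = 0 := by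
    apply b.ext
    intro i
    rw [LinearMap.zero_apply]
    apply h1
    rw [← hb]
    exact Submodule.subset_span ⟨i, rfl⟩
  have h3 : ∀ v, φ v = 0 := fun v => by rw [h2]; rfl
  constructor
  · funext c
    have h4 := h3 (Pi.single (.inl c) 1)
    have h5 : φ (Pi.single (.inl c) 1) = p c := by
      show ∑ d, p d * (Pi.single (.inl c) 1 : A.H1) (.inl d) +
        ∑ d, q d * (Pi.single (.inl c) 1 : A.H1) (.inr d) = p c
      rw [Finset.sum_eq_single c (fun d _ hd => by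
        rw [Pi.single_eq_of_ne (fun h => hd (Sum.inl.inj h)), mul_zero]) (by simp),
        Finset.sum_eq_zero (fun d _ => by rw [Pi.single_eq_of_ne (by simp), mul_zero])]
      simp
    rw [← h5, h4]; rfl
  · funext c
    have h4 := h3 (Pi.single (.inr c) 1)
    have h5 : φ (Pi.single (.inr c) 1) = q c := by
      show ∑ d, p d * (Pi.single (.inr c) 1 : A.H1) (.inl d) +
        ∑ d, q d * (Pi.single (.inr c) 1 : A.H1) (.inr d) = q c
      rw [Finset.sum_eq_zero (fun d _ => by rw [Pi.single_eq_of_ne (by simp), mul_zero]),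
        Finset.sum_eq_single c (fun d _ hd => by
        rw [Pi.single_eq_of_ne (fun h => hd (Sum.inr.inj h)), mul_zero]) (by simp)]
      simp
    rw [← h5, h4]; rfl

/-- matrices which map a multiple of the lattice to the other lattice form a countable set -/
lemma countable_matrices : {Ψ : Matrix (Fin B.g) (Fin A.g) ℂ |
    ∃ m : ℕ, m ≠ 0 ∧ ∀ l ∈ A.Λ, (m : ℂ) • Ψ.mulVec l ∈ B.Λ}.Countable := by
  classical
  have := A.discrete
  have : IsZLattice ℝ A.Λ := ⟨A.spans⟩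
  have := B.discrete
  have : IsZLattice ℝ B.Λ := ⟨B.spans⟩
  let b₀ := Module.Free.chooseBasis ℤ A.Λ
  let bB := Module.Free.chooseBasis ℤ B.Λ
  let ι := Module.Free.ChooseBasisIndex ℤ A.Λ
  have hcB : Countable B.Λ := bB.equivFun.toEquiv.countable_iff.mpr inferInstance
  have hsub : {Ψ : Matrix (Fin B.g) (Fin A.g) ℂ |
      ∃ m : ℕ, m ≠ 0 ∧ ∀ l ∈ A.Λ, (m : ℂ) • Ψ.mulVec l ∈ B.Λ} ⊆
      ⋃ (p : ℕ × (ι → B.Λ)), {Ψ : Matrix (Fin B.g) (Fin A.g) ℂ | p.1 ≠ 0 ∧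
        ∀ i, (p.1 : ℂ) • Ψ.mulVec (b₀ i : Fin A.g → ℂ) = (p.2 i : Fin B.g → ℂ)} := by
    rintro Ψ ⟨m, hm, h⟩
    rw [Set.mem_iUnion]
    exact ⟨(m, fun i => ⟨_, h _ (b₀ i).2⟩), hm, fun i => rfl⟩
  refine Set.Countable.mono hsub (Set.countable_iUnion fun p => ?_)
  apply Set.Subsingleton.countable
  rintro Ψ ⟨hp, h⟩ Ψ' ⟨_, h'⟩
  have hpC : (p.1 : ℂ) ≠ 0 := Nat.cast_ne_zero.mpr hp
  have h1 : ∀ i, Ψ.mulVec (b₀ i : Fin A.g → ℂ) = Ψ'.mulVec (b₀ i : Fin A.g → ℂ) := by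
    intro i
    have := (h i).trans (h' i).symm
    exact smul_right_injective _ hpC this
  let bR := b₀.ofZLatticeBasis ℝ A.Λ
  have h2 : (Matrix.mulVecLin Ψ).restrictScalars ℝ = (Matrix.mulVecLin Ψ').restrictScalars ℝ := by
    apply bR.ext
    intro i
    have h3 : bR i = b₀ i := b₀.ofZLatticeBasis_apply ℝ A.Λ i
    rw [h3]
    exact h1 i
  apply Matrix.ext_of_mulVec_single
  intro i
  exact LinearMap.congr_fun h2 (Pi.single i 1)

/-- pigeonhole: if the points `z0 + l` have finitely many images -/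
lemma exists_mul_mem (z0 : Fin A.g → ℂ)
    (h0 : ∀ l ∈ A.Λ, B.θ B.i0 (Φ.mulVec (z0 + l)) ≠ 0) (T : Finset ℂ)
    (hT : ∀ l ∈ A.Λ, ∀ j, B.θ j (Φ.mulVec (z0 + l)) / B.θ B.i0 (Φ.mulVec (z0 + l)) ∈ T) :
    ∃ m : ℕ, m ≠ 0 ∧ ∀ l ∈ A.Λ, (m : ℂ) • Φ.mulVec l ∈ B.Λ := by
  classical
  set K := Fintype.card (Fin (B.N + 1) → T) with hK
  refine ⟨K.factorial, K.factorial_ne_zero, fun l hl => ?_⟩
  have hmem : ∀ k : ℕ, (k : ℂ) • l ∈ A.Λ := by
    intro k
    have h1 : (k : ℂ) • l = (k : ℤ) • l := by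
      funext j; simp
    rw [h1]
    exact A.Λ.smul_mem _ hl
  let F : Fin (K + 1) → (Fin (B.N + 1) → T) := fun k j =>
    ⟨_, hT _ (hmem k.1) j⟩
  obtain ⟨k, k', hne, heq⟩ := Fintype.exists_ne_map_eq_of_card_lt F (by
    rw [← hK, Fintype.card_fin]; omega)
  have key : ∀ k k' : Fin (K + 1), F k = F k' → k.1 < k'.1 →
      (K.factorial : ℂ) • Φ.mulVec l ∈ B.Λ := by
    intro k k' heq hlt
    have hy : ∀ j, B.θ j (Φ.mulVec (z0 + (k.1 : ℂ) • l)) / B.θ B.i0 (Φ.mulVec (z0 + (k.1 : ℂ) • l))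
        = B.θ j (Φ.mulVec (z0 + (k'.1 : ℂ) • l)) /
          B.θ B.i0 (Φ.mulVec (z0 + (k'.1 : ℂ) • l)) := fun j =>
      congrArg Subtype.val (congrFun heq j)
    have hn := h0 _ (hmem k.1)
    have hn' := h0 _ (hmem k'.1)
    have hsep := B.separates (Φ.mulVec (z0 + (k'.1 : ℂ) • l)) (Φ.mulVec (z0 + (k.1 : ℂ) • l)) (by
      intro i j
      have hi := hy i
      have hj := hy j
      rw [div_eq_div_iff hn hn'] at hi hj
      have h1 : (B.θ B.i0 (Φ.mulVec (z0 + (k'.1 : ℂ) • l)) *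
          B.θ B.i0 (Φ.mulVec (z0 + (k.1 : ℂ) • l))) *
          (B.θ i (Φ.mulVec (z0 + (k'.1 : ℂ) • l)) * B.θ j (Φ.mulVec (z0 + (k.1 : ℂ) • l))) =
          (B.θ B.i0 (Φ.mulVec (z0 + (k'.1 : ℂ) • l)) *
          B.θ B.i0 (Φ.mulVec (z0 + (k.1 : ℂ) • l))) *
          (B.θ j (Φ.mulVec (z0 + (k'.1 : ℂ) • l)) * B.θ i (Φ.mulVec (z0 + (k.1 : ℂ) • l))) := by
        linear_combination
          (B.θ B.i0 (Φ.mulVec (z0 + (k.1 : ℂ) • l)) * B.θ i (Φ.mulVec (z0 + (k'.1 : ℂ) • l))) * hj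
          - (B.θ B.i0 (Φ.mulVec (z0 + (k.1 : ℂ) • l)) *
            B.θ j (Φ.mulVec (z0 + (k'.1 : ℂ) • l))) * hi
      exact mul_left_cancel₀ (mul_ne_zero hn' hn) h1)
    have h2 : Φ.mulVec (z0 + (k'.1 : ℂ) • l) - Φ.mulVec (z0 + (k.1 : ℂ) • l) =
        ((k'.1 - k.1 : ℕ) : ℂ) • Φ.mulVec l := by
      rw [Matrix.mulVec_add, Matrix.mulVec_add, Matrix.mulVec_smul, Matrix.mulVec_smul,
        Nat.cast_sub hlt.le, sub_smul]
      abel
    rw [h2] at hsep
    obtain ⟨d, hd⟩ : (k'.1 - k.1) ∣ K.factorial :=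
      Nat.dvd_factorial (by omega) (by have := k'.2; omega)
    have h3 : (K.factorial : ℂ) • Φ.mulVec l = (d : ℤ) • (((k'.1 - k.1 : ℕ) : ℂ) • Φ.mulVec l) := by
      rw [hd]
      funext j
      simp
      ring
    rw [h3]
    exact B.Λ.smul_mem _ hsep
  rcases lt_or_gt_of_ne (fun h => hne (Fin.ext h) : k.1 ≠ k'.1) with hlt | hlt
  · exact key k k' heq hlt
  · exact key k' k heq.symm hlt

end Pool.Agent.Helper11.AF
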