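import Pool.Agent.Helper11.AF.Rigid
import Pool.Agent.Helper7.AF.Defs
import Pool.Agent.Helper40.Gpc.HodgeOp
import Pool.Agent.Helper71.AF.Alg

/-!
Adjoints of homomorphisms of abelian varieties; Schur's lemma.
-/

open scoped ComplexConjugate

namespace Pool.Agent.GPC

namespace AbVar

/-- identity -/
lemma IsMor.id (A : AbVar) : A.IsMor A (fun v => v) :=
  ⟨⟨fun _ _ => rfl, fun _ _ => rfl⟩, fun _ h => h, fun _ h => h, fun _ h => h⟩

lemma IsMor.comp {A B C : AbVar} {g : B.H1 → C.H1} {f : A.H1 → B.H1} (hg : B.IsMor C g)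
    (hf : A.IsMor B f) : A.IsMor C (fun v => g (f v)) :=
  ⟨⟨fun u v => by rw [hf.linear.map_add, hg.linear.map_add],
    fun c u => by rw [hf.linear.map_smul, hg.linear.map_smul]⟩,
    fun v hv => hg.betti _ (hf.betti _ hv), fun v hv => hg.deRham _ (hf.deRham _ hv),
    fun v hv => hg.hodge _ (hf.hodge _ hv)⟩

lemma isEnd_iff_isMor {A : AbVar} {f : A.H1 → A.H1} : A.IsEnd f ↔ A.IsMor A f :=
  ⟨fun h => ⟨h.linear, h.betti, h.deRham, h.hodge⟩, fun h => ⟨h.linear, h.betti, h.deRham, h.hodge⟩⟩

lemma IsMor.map_zero {A B : AbVar} {f : A.H1 → B.H1} (hf : A.IsMor B f) : f 0 = 0 := by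
  have h := hf.linear.map_smul 0 0
  rw [zero_smul, zero_smul] at h
  exact h

end AbVar

end Pool.Agent.GPC

namespace Pool.Agent.Helper11.AF

open Module Pool.Agent.GPC Pool.Agent.Helper7

/-- the Betti structure is self dual under the polarisation -/
lemma betti_of_pol (A : AbVar) (w : A.H1)
    (h : ∀ u ∈ A.betti, ∃ q : ℚ, A.polForm u w = 2 * Real.pi * Complex.I * q) : w ∈ A.betti := by
  classical
  obtain ⟨ι, _, b, hb⟩ := exists_bettiBasis A
  have hmem : ∀ i, b i ∈ A.betti := fun i => by
    rw [← hb]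
    exact Submodule.subset_span ⟨i, rfl⟩
  have h1 := Pool.Agent.Helper71.AF.coord_mem b A.polForm (algebraMap ℚ ℂ)
    (2 * Real.pi * Complex.I) Complex.two_pi_I_ne_zero
    (fun i j => polForm_rat A _ _ (hmem i) (hmem j))
    (fun v hv => polForm_nondeg A v (fun u => by rw [polForm_antisymm, hv, neg_zero])) w
    (fun i => h _ (hmem i))
  rw [← b.sum_repr w]
  refine Submodule.sum_mem _ fun j _ => ?_
  obtain ⟨q, hq⟩ := h1 j
  rw [hq]
  have h2 : (algebraMap ℚ ℂ q) • b j = q • b j := by
    funext k; simp [Algebra.smul_def]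
  rw [h2]
  exact Submodule.smul_mem _ _ (hmem j)

lemma pol_fil (A : AbVar) {u v : A.H1} (hu : A.IsFil u) (hv : A.IsFil v) : A.pol u v = 0 := by
  unfold AbVar.pol
  refine Finset.sum_eq_zero fun a _ => ?_
  rw [hu a, hv a]
  ring

lemma isFil_of_pol (A : AbVar) {v : A.H1} (h : ∀ u, A.IsFil u → A.pol u v = 0) : A.IsFil v := by
  intro a
  have h1 := h (Pi.single (.inr a) 1) (fun b => by rw [Pi.single_eq_of_ne (by simp)])
  unfold AbVar.pol at h1
  rw [Finset.sum_eq_single a (fun b _ hb => by
      rw [Pi.single_eq_of_ne (by simp), Pi.single_eq_of_ne (fun h => hb (Sum.inr.inj h))]; ring)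
      (by simp)] at h1
  simpa using h1

/-- adjoint of a homomorphism -/
theorem exists_adj_mor (A B : AbVar) (f : A.H1 → B.H1) (hf : A.IsMor B f) :
    ∃ f' : B.H1 → A.H1, B.IsMor A f' ∧ ∀ u v, B.pol (f u) v = A.pol u (f' v) := by
  let F : A.H1 →ₗ[ℂ] B.H1 := hf.linear.mk' f
  obtain ⟨Ψ, hΨ⟩ : ∃ Ψ : A.H1 ≃ₗ[ℂ] Module.Dual ℂ A.H1, ∀ u v, Ψ v u = A.polForm u v := by
    refine ⟨LinearMap.linearEquivOfInjective A.polForm.flip ?_ Subspace.dual_finrank_eq.symm,
      fun u v => rfl⟩
    rw [← LinearMap.ker_eq_bot, LinearMap.ker_eq_bot']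
    intro v hv
    apply polForm_nondeg
    intro u
    have := congrArg (fun g => g u) hv
    rw [polForm_antisymm]
    have h2 : A.polForm u v = 0 := this
    rw [h2, neg_zero]
  let f' : B.H1 →ₗ[ℂ] A.H1 := Ψ.symm.toLinearMap ∘ₗ (F.dualMap ∘ₗ B.polForm.flip)
  have hadj : ∀ u v, B.pol (f u) v = A.pol u (f' v) := by
    intro u v
    rw [pol_eq, pol_eq, ← hΨ u]
    simp only [f', LinearMap.comp_apply, LinearEquiv.coe_coe, LinearEquiv.apply_symm_apply,
      LinearMap.dualMap_apply]
    rfl
  have hfil : ∀ v, B.IsFil v → A.IsFil (f' v) := by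
    intro v hv
    apply isFil_of_pol
    intro u hu
    rw [← hadj]
    exact pol_fil B (hf.hodge u hu) hv
  have hbet : ∀ v, B.IsBetti v → A.IsBetti (f' v) := by
    intro v hv
    rw [isBetti_iff] at hv ⊢
    apply betti_of_pol
    intro u hu
    rw [← pol_eq, ← hadj, pol_eq]
    exact polForm_rat B _ _ ((isBetti_iff B _).mp (hf.betti u ((isBetti_iff A _).mpr hu))) hv
  have hlin : IsLinearMap ℂ f' := ⟨fun u v => map_add f' u v, fun c u => map_smul f' c u⟩
  exact ⟨f', ⟨hlin, hbet, deRham_of_hodge B A f' hlin hbet hfil, hfil⟩, hadj⟩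

lemma map_real' {A B : AbVar} (f : A.H1 →ₗ[ℂ] B.H1) (hb : ∀ v, A.IsBetti v → B.IsBetti (f v))
    (v : A.H1) (hv : v ∈ Submodule.span ℝ {u | A.IsBetti u}) :
    f v ∈ Submodule.span ℝ {u | B.IsBetti u} := by
  induction hv using Submodule.span_induction with
  | mem v hv => exact Submodule.subset_span (hb v hv)
  | zero => rw [map_zero]; exact Submodule.zero_mem _
  | add u v _ _ hu hv => rw [map_add]; exact Submodule.add_mem _ hu hv
  | smul r v _ hv =>
    have h4 : r • v = (r : ℂ) • v := by
      funext j; simp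
    have h5 : f (r • v) = r • f v := by
      rw [h4, map_smul]
      funext j; simp
    rw [h5]
    exact Submodule.smul_mem _ _ hv

/-- a homomorphism whose image is isotropic is zero -/
theorem eq_zero_of_isotropic (A B : AbVar) (f : A.H1 → B.H1) (hf : A.IsMor B f)
    (h : ∀ u v, B.pol (f u) (f v) = 0) : ∀ v, f v = 0 := by
  let F : A.H1 →ₗ[ℂ] B.H1 := hf.linear.mk' f
  have hper : ∀ z, F (A.period z) = B.period (B.zz (F (A.period z))) := fun z =>
    real_span_betti B (map_real' F hf.betti _ (Pool.Agent.Helper40.Gpc.period_mem_span A z))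
  have hI : ∀ z, B.zz (F (A.period (Complex.I • z))) = Complex.I • B.zz (F (A.period z)) := by
    intro z
    have h1 : A.IsFil (A.period (Complex.I • z) - Complex.I • A.period z) := by
      intro a
      change Complex.I * z a - Complex.I * z a = 0
      rw [sub_self]
    have h2 : B.IsFil (F (A.period (Complex.I • z) - Complex.I • A.period z)) := hf.hodge _ h1
    rw [map_sub, map_smul] at h2
    funext a
    have h3 := h2 a
    rw [Pi.sub_apply, Pi.smul_apply, sub_eq_zero] at h3
    exact h3
  have hz : ∀ z, F (A.period z) = 0 := by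
    intro z
    have h1 : B.pol (F (A.period z)) (F (A.period (Complex.I • z))) = 0 := h _ _
    rw [hper z, hper (Complex.I • z), hI, pol_eq, polForm_period,
      Pool.Agent.Helper7.hermForm_smul_right] at h1
    have h7 : ((conj Complex.I * hermForm B.H (B.zz (F (A.period z))) (B.zz (F (A.period z)))).im : ℝ)
        = - (hermForm B.H (B.zz (F (A.period z))) (B.zz (F (A.period z)))).re := by
      rw [Complex.conj_I]
      simp
    rw [h7] at h1
    have h8 : (hermForm B.H (B.zz (F (A.period z))) (B.zz (F (A.period z)))).re = 0 := by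
      rcases mul_eq_zero.mp h1 with h9 | h9
      · exact absurd h9 Complex.two_pi_I_ne_zero
      · have h10 : (-(hermForm B.H (B.zz (F (A.period z))) (B.zz (F (A.period z)))).re : ℝ) = 0 := by
          exact_mod_cast h9
        linarith
    by_contra hne
    have h9 : B.zz (F (A.period z)) ≠ 0 := by
      intro h0
      apply hne
      rw [hper z, h0, period_zero]
    have h10 := B.appellHumbert.pos _ h9
    rw [h8] at h10
    exact lt_irrefl _ h10
  intro v
  have hv := span_betti A v
  show F v = 0
  induction hv using Submodule.span_induction with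
  | mem v hv =>
    have h1 : v = A.period (A.zz v) := real_span_betti A (Submodule.subset_span hv)
    rw [h1, hz]
  | zero => rw [map_zero]
  | add u v _ _ hu hv => rw [map_add, hu, hv, add_zero]
  | smul c v _ hv => rw [map_smul, hv, smul_zero]

/-- the Betti structure has dimension `2 dim A` -/
lemma finrank_betti (A : AbVar) : Module.Finite ℚ A.betti ∧ finrank ℚ A.betti = finrank ℂ A.H1 := by
  obtain ⟨ι, _, b, hb⟩ := exists_bettiBasis A
  have hcard : Fintype.card ι = finrank ℂ A.H1 := (Module.finrank_eq_card_basis b).symm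
  constructor
  · rw [← hb]
    exact Module.Finite.span_of_finite ℚ (Set.finite_range b)
  · rw [← hcard, ← hb]
    apply finrank_span_eq_card
    exact b.linearIndependent.restrict_scalars (by
      intro a b h
      simpa using h)

/-- the inverse of a bijective homomorphism -/
theorem inv_mor (A B : AbVar) (f : A.H1 → B.H1) (hf : A.IsMor B f) (e : A.H1 ≃ₗ[ℂ] B.H1)
    (he : ∀ v, e v = f v) : B.IsMor A e.symm := by
  have hdim : finrank ℂ A.H1 = finrank ℂ B.H1 := e.finrank_eq
  have hbet : ∀ v, B.IsBetti v → A.IsBetti (e.symm v) := by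
    obtain ⟨hfA, hA⟩ := finrank_betti A
    obtain ⟨hfB, hB⟩ := finrank_betti B
    let E : A.betti →ₗ[ℚ] B.betti :=
      { toFun := fun v => ⟨e v, by
          rw [← isBetti_iff, he]
          exact hf.betti _ ((isBetti_iff A _).mpr v.2)⟩
        map_add' := fun u v => Subtype.ext (map_add e _ _)
        map_smul' := fun c u => Subtype.ext (by
          have h2 : ∀ (X : AbVar) (x : X.H1), c • x = (c : ℂ) • x := by
            intro X x
            funext j; simp [Algebra.smul_def]
          change e (c • (u : A.H1)) = c • e (u : A.H1)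
          rw [h2 A, h2 B, map_smul]) }
    have hinj : Function.Injective E := by
      intro u v huv
      exact Subtype.ext (e.injective (congrArg Subtype.val huv))
    have hsurj : Function.Surjective E :=
      (LinearMap.injective_iff_surjective_of_finrank_eq_finrank (by rw [hA, hB, hdim])).mp hinj
    intro v hv
    obtain ⟨u, hu⟩ := hsurj ⟨v, (isBetti_iff B v).mp hv⟩
    have h1 : e u = v := congrArg Subtype.val hu
    rw [← h1, LinearEquiv.symm_apply_apply]
    exact (isBetti_iff A _).mpr u.2
  have hgdim : A.g = B.g := by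
    rw [Module.finrank_fintype_fun_eq_card, Module.finrank_fintype_fun_eq_card, Fintype.card_sum,
      Fintype.card_sum, Fintype.card_fin, Fintype.card_fin] at hdim
    omega
  have hfil : ∀ v, B.IsFil v → A.IsFil (e.symm v) := by
    -- inclusion of the second factor
    let jA : (Fin A.g → ℂ) →ₗ[ℂ] A.H1 :=
      { toFun := fun w => Sum.elim 0 w
        map_add' := fun u v => by
          funext s; rcases s with s | s <;> simp
        map_smul' := fun c u => by
          funext s; rcases s with s | s <;> simp }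
    let qB : B.H1 →ₗ[ℂ] (Fin B.g → ℂ) := LinearMap.pi fun a => LinearMap.proj (.inr a)
    let G : (Fin A.g → ℂ) →ₗ[ℂ] (Fin B.g → ℂ) := qB ∘ₗ (e.toLinearMap ∘ₗ jA)
    have hjfil : ∀ w, A.IsFil (jA w) := fun w a => rfl
    have hinj : Function.Injective G := by
      rw [← LinearMap.ker_eq_bot, LinearMap.ker_eq_bot']
      intro w hw
      have h1 : e (jA w) = 0 := by
        funext s
        rcases s with s | s
        · rw [he]
          exact hf.hodge _ (hjfil w) s
        · exact congrFun hw s
      have h2 : jA w = 0 := by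
        apply e.injective
        rw [h1, map_zero]
      funext s
      exact congrFun h2 (.inr s)
    have hsurj : Function.Surjective G :=
      (LinearMap.injective_iff_surjective_of_finrank_eq_finrank (by
        rw [Module.finrank_fintype_fun_eq_card, Module.finrank_fintype_fun_eq_card,
          Fintype.card_fin, Fintype.card_fin, hgdim])).mp hinj
    intro v hv
    obtain ⟨w, hw⟩ := hsurj (fun a => v (.inr a))
    have h1 : e (jA w) = v := by
      funext s
      rcases s with s | s
      · rw [he, hf.hodge _ (hjfil w) s, hv s]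
      · exact congrFun hw s
    rw [← h1, LinearEquiv.symm_apply_apply]
    exact hjfil w
  have hlin : IsLinearMap ℂ e.symm := ⟨fun u v => map_add e.symm u v, fun c u => map_smul e.symm c u⟩
  exact ⟨hlin, hbet, deRham_of_hodge B A e.symm hlin hbet hfil, hfil⟩

/-- Schur's lemma: a non-zero homomorphism between simple abelian varieties is an isogeny -/
theorem schur (A B : AbVar) (hA : A.IsSimple) (hB : B.IsSimple) (f : A.H1 → B.H1)
    (hf : A.IsMor B f) (h0 : ∃ v, f v ≠ 0) : ∃ e : A.H1 ≃ₗ[ℂ] B.H1, (∀ v, e v = f v) ∧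
      A.IsMor B e ∧ B.IsMor A e.symm := by
  obtain ⟨f', hf', hadj⟩ := exists_adj_mor A B f hf
  let F : A.H1 →ₗ[ℂ] B.H1 := hf.linear.mk' f
  let F' : B.H1 →ₗ[ℂ] A.H1 := hf'.linear.mk' f'
  have h1 : ∃ v, f' (f v) ≠ 0 := by
    by_contra hcon
    push Not at hcon
    obtain ⟨v, hv⟩ := h0
    apply hv
    apply eq_zero_of_isotropic A B f hf
    intro u w
    rw [hadj, hcon]
    unfold AbVar.pol
    simp
  have hinj1 : Function.Injective (fun v => f' (f v)) :=
    hA _ (AbVar.isEnd_iff_isMor.mpr (hf'.comp hf)) h1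
  have hinjf : Function.Injective f := fun u v huv => hinj1 (by
    show f' (f u) = f' (f v)
    rw [huv])
  have h2 : ∃ w, f (f' w) ≠ 0 := by
    obtain ⟨v, hv⟩ := h0
    refine ⟨f v, fun h => ?_⟩
    have h3 : f' (f v) = 0 := hinjf (by rw [h, hf.map_zero])
    have h4 : f' (f v) = f' (f 0) := by rw [h3, hf.map_zero, hf'.map_zero]
    have h5 : v = 0 := hinj1 h4
    apply hv
    rw [h5, hf.map_zero]
  have hinj2 : Function.Injective (fun v => f (f' v)) :=
    hB _ (AbVar.isEnd_iff_isMor.mpr (hf.comp hf')) h2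
  have hinjf' : Function.Injective f' := fun u v huv => hinj2 (by
    show f (f' u) = f (f' v)
    rw [huv])
  have hdim : finrank ℂ A.H1 = finrank ℂ B.H1 :=
    le_antisymm (LinearMap.finrank_le_finrank_of_injective (f := F) hinjf)
      (LinearMap.finrank_le_finrank_of_injective (f := F') hinjf')
  let e : A.H1 ≃ₗ[ℂ] B.H1 := LinearMap.linearEquivOfInjective F hinjf hdim
  have he : ∀ v, e v = f v := fun v => rfl
  exact ⟨e, he, ⟨⟨fun u v => map_add e u v, fun c u => map_smul e c u⟩, hf.betti, hf.deRham,
    hf.hodge⟩, inv_mor A B f hf e he⟩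

end Pool.Agent.Helper11.AF
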