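import Pool.Agent.Helper11.AF.IsogDefs

/-!
Transfer of classes along an isogeny from an abelian variety to a product.
-/

namespace Pool.Agent.GPC

open Module

section transfer

variable (X : AbVar) {I : Type} [Fintype I] (A : I → AbVar) (n : I → ℕ) (Φ : X.H1 ≃ₗ[ℂ] H1 A n)
  (hΦ : IsIsogeny X A n Φ)

include hΦ

lemma IsIsogeny.symm_betti (v : H1 A n) : IsBetti A n v ↔ X.IsBetti (Φ.symm v) := by
  rw [hΦ.betti, LinearEquiv.apply_symm_apply]

lemma IsIsogeny.symm_deRham (v : H1 A n) : IsDeRham A n v ↔ X.IsDeRham (Φ.symm v) := by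
  rw [hΦ.deRham, LinearEquiv.apply_symm_apply]

lemma IsIsogeny.symm_fil (v : H1 A n) : IsFil A n v ↔ X.IsFil (Φ.symm v) := by
  rw [hΦ.fil, LinearEquiv.apply_symm_apply]

/-- (d1) -/
theorem grothendieck_transfer {k : ℕ} (α : X.Class (2 * k)) (hα : X.IsGrothendieckClass k α) :
    IsGrothendieck A n k (α.compLinearMap Φ.symm.toLinearMap) := by
  constructor
  · intro v hv
    rw [AlternatingMap.compLinearMap_apply]
    exact hα.1 _ fun r => (hΦ.symm_deRham X A n Φ (v r)).mp (hv r)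
  · intro v hv
    rw [AlternatingMap.compLinearMap_apply]
    exact hα.2 _ fun r => (hΦ.symm_betti X A n Φ (v r)).mp (hv r)

/-- (d2) -/
theorem divisorial_transfer (ι : ∀ i, (A i).H1 → X.H1)
    (hι : ∀ i, (A i).IsMor X (ι i) ∧ ∀ u v, X.pol (ι i u) (ι i v) = (A i).pol u v) {k : ℕ}
    (α : Form A n (2 * k)) (hα : IsDivisorial A n k α) :
    X.IsDivisorialClass k (α.compLinearMap Φ.toLinearMap) := by
  obtain ⟨m, c, ω, hω, h⟩ := hα
  choose i h1 hh hp using hω
  refine ⟨m, c, fun j a v => ι (i j a) (h1 j a (Φ v)), fun j v => ω j (fun r => Φ (v r)), ?_, ?_, ?_⟩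
  · intro j a
    have hm := (hι (i j a)).1
    have hf := hh j a
    refine ⟨⟨fun u v => ?_, fun c u => ?_⟩, fun v hv => ?_, fun v hv => ?_, fun v hv => ?_⟩
    · show ι (i j a) (h1 j a (Φ (u + v))) = ι (i j a) (h1 j a (Φ u)) + ι (i j a) (h1 j a (Φ v))
      rw [map_add, hf.linear.map_add, hm.linear.map_add]
    · show ι (i j a) (h1 j a (Φ (c • u))) = c • ι (i j a) (h1 j a (Φ u))
      rw [map_smul, hf.linear.map_smul, hm.linear.map_smul]
    · exact hm.betti _ (hf.betti _ ((hΦ.betti v).mp hv))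
    · exact hm.deRham _ (hf.deRham _ ((hΦ.deRham v).mp hv))
    · exact hm.hodge _ (hf.hodge _ ((hΦ.fil v).mp hv))
  · intro j v
    show ω j (fun r => Φ (v r)) = _
    rw [hp j (fun r => Φ (v r))]
    refine Finset.sum_congr rfl fun p _ => ?_
    congr 1
    refine Finset.prod_congr rfl fun a _ => ?_
    exact ((hι (i j a)).2 _ _).symm
  · intro v
    rw [AlternatingMap.compLinearMap_apply]
    exact h _

/-- (d3) endomorphisms -/
theorem endo_transfer (f : H1 A n → H1 A n) (hf : IsEndo A n f) :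
    X.IsEnd (fun v => Φ.symm (f (Φ v))) := by
  refine ⟨⟨fun u v => ?_, fun c u => ?_⟩, fun v hv => ?_, fun v hv => ?_, fun v hv => ?_⟩
  · rw [map_add, hf.linear.map_add, map_add]
  · rw [map_smul, hf.linear.map_smul, map_smul]
  · exact (hΦ.symm_betti X A n Φ _).mp (hf.betti _ ((hΦ.betti v).mp hv))
  · exact (hΦ.symm_deRham X A n Φ _).mp (hf.deRham _ ((hΦ.deRham v).mp hv))
  · exact (hΦ.symm_fil X A n Φ _).mp (hf.hodge _ ((hΦ.fil v).mp hv))

/-- (d3') endomorphisms in the other direction -/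
theorem endo_transfer' (f : X.H1 → X.H1) (hf : X.IsEnd f) :
    IsEndo A n (fun v => Φ (f (Φ.symm v))) := by
  refine ⟨⟨fun u v => ?_, fun c u => ?_⟩, fun v hv => ?_, fun v hv => ?_, fun v hv => ?_⟩
  · rw [map_add, hf.linear.map_add, map_add]
  · rw [map_smul, hf.linear.map_smul, map_smul]
  · exact (hΦ.betti _).mp (hf.betti _ ((hΦ.symm_betti X A n Φ v).mp hv))
  · exact (hΦ.deRham _).mp (hf.deRham _ ((hΦ.symm_deRham X A n Φ v).mp hv))
  · exact (hΦ.fil _).mp (hf.hodge _ ((hΦ.symm_fil X A n Φ v).mp hv))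

end transfer

end Pool.Agent.GPC
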